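import Pool.Agent.Q142.RefinePrism

set_option autoImplicit false

/-!
# Refinement maps onto the simplex that respect a tower and an extra vertex need not exist

The definitions are in `Pool.Agent.Q142.Expl` (`Sp d` is Euclidean `d`-space, `IsPolytope`, `dim`,
`faces P` is the set of all faces of `P` including the empty face and `P`, `vertices`) and in
`Pool.Agent.Q142.Refine` (`IsTower`, `IsSimplex`, `img`, `preimg`, `IsRefinementMap`).

For every `d ≥ 3` there are a `d`-polytope `P` (the prism over the `(d-1)`-simplex), a tower of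
faces `F 0 ⊂ F 1 ⊂ ⋯ ⊂ F d = P` and a vertex `V` outside `F (d - 1)` such that no refinement map
of `P` onto a `d`-simplex, piecewise affine or not, maps `V`, `F 0`, `F 1` and `F (d - 1)` onto
faces of the simplex. The reason: the two ends of the edge `F 1` have the same only neighbour `W`
outside the facet `F (d - 1)`, and `W ≠ V`; the preimages of the two edges of the simplex that
join the images of the ends of `F 1` to the image of `V` would both contain `W`.
-/

namespace Pool.Agent.Results.MP_82a66d_co.NoRefinement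

open Q142

theorem result (d : ℕ) (hd : 3 ≤ d) :
    ∃ (P : Set (Sp d)) (F : ℕ → Set (Sp d)) (V : Sp d),
      IsPolytope P ∧ dim P = d ∧ IsTower d P F ∧ V ∈ vertices P ∧ V ∉ F (d - 1) ∧
      ∀ T : Set (Sp d), IsSimplex T → ∀ ψ : P ≃ₜ T, IsRefinementMap ψ →
        ¬ (img ψ {V} ∈ faces T ∧ img ψ (F 0) ∈ faces T ∧ img ψ (F 1) ∈ faces T ∧
          img ψ (F (d - 1)) ∈ faces T) := by
  obtain ⟨m, rfl⟩ : ∃ m, d = m + 3 := ⟨d - 3, by omega⟩
  refine ⟨Prism.P m, Prism.F m, Prism.V m,
    ⟨(Prism.verts_finite m).toFinset, by rw [Set.Finite.coe_toFinset]; rfl⟩, ?_,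
    Prism.tower m, Prism.V_vertex m, Prism.V_notMem m, ?_⟩
  · have h := Prism.F_dim m (m + 3) le_rfl
    rwa [Prism.F_top] at h
  · rintro T hT ψ hψ ⟨hV, h0, h1, hd⟩
    rw [Prism.F_zero] at h0
    rw [Prism.F_one] at h1
    have hlast : Prism.e m (Fin.last (m + 2)) ≠ Prism.V m := by
      intro h
      have h2 : Prism.e m (Fin.last (m + 2)) 1 = Prism.e m (Fin.last (m + 2)) 1 +
          Prism.e m 1 1 := congrArg (fun x : Sp (m + 3) => x 1) h
      rw [Prism.e_apply m 1 1, if_pos rfl] at h2
      linarith
    have hne : (0 : Sp (m + 3)) ≠ Prism.e m 0 := by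
      intro h
      have h2 : (0 : ℝ) = Prism.e m 0 0 := congrArg (fun x : Sp (m + 3) => x 0) h
      rw [Prism.e_apply, if_pos rfl] at h2
      norm_num at h2
    have hl0 := Prism.last_ne_zero m
    exact obstruction (Prism.verts_finite m) (Fd := Prism.F m (m + 2)) 0 (Prism.e m 0) (Prism.V m)
      (Prism.zero_mem m) (Prism.e_mem m 0) (Prism.e_add_mem m _ (Prism.last_ne_one m)) hne
      ⟨Prism.zero_mem m, fun _ _ => rfl⟩
      ⟨Prism.e_mem m 0, fun j hj => by
        rw [Prism.e_apply, if_neg]
        intro h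
        rw [h] at hj
        simp at hj⟩
      (Prism.V_notMem m) (Prism.e m (Fin.last (m + 2))) hlast
      (fun G hG => Prism.W_zero m hG) (fun G hG => Prism.W_e m hG) hT ψ hψ hV h0 h1 hd

end Pool.Agent.Results.MP_82a66d_co.NoRefinement
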